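import Pool.Agent.N567.MD.StmtM

/-!
# Beilinson's conjectures on height pairings for one variety: the definitions
-/

set_option autoImplicit false

open CategoryTheory AlgebraicGeometry

universe u v w

namespace Pool.Agent.N166.HI

open Pool.Agent.H914 Pool.Agent.H914.VarClass Pool.Agent.H914.VarClass.Obj Pool.Agent.N164.Prim
open Pool.Agent.W492.BB (TheoryData WeilTheoryData)

variable {k : Type u} [Field k] {𝒱 : VarClass k} {C : TheoryData.{u, v, 0} 𝒱 ℚ} {X : 𝒱.Obj}

/-- The correspondence `z ↦ D z`: the push-forward of `D` along the diagonal. -/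
noncomputable def mult (D : C.A X) : Cor C X X := C.down (Obj.lift (𝟙 X) (𝟙 X)) D

/-- The decomposition `π` is self-dual: the transpose of `π m` is `π (2 dim X - m)`. -/
def IsSelfDual (π : ℕ → Cor C X X) : Prop :=
  ∀ m ≤ 2 * X.dim, transpose C (π m) = π (2 * X.dim - m)

variable {K : Type w} [Field K] (H : WeilTheoryData.{u, v, w} C K)

/-- The Chow-Kunneth decomposition `π` of `X` satisfies the hard Lefschetz theorem for the divisor
class `h` on the level of Chow motives: the multiplication with `h` maps the motive `(X, π m)` to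
`(X, π (m + 2))`, and for `m ≤ n = dim X` the multiplication with `h^(n-m)` is an isomorphism of the
motives `(X, π m)` and `(X, π (2 n - m))` (up to twist), with inverse `θ`. -/
structure IsLefschetzCK (X : 𝒱.Obj) (h : C.A X) (π : ℕ → Cor C X X) : Prop where
  ck : IsCK H X π
  deg : C.Deg 1 h
  comm : ∀ m, comp C (π m) (mult h) = comp C (mult h) (π (m + 2))
  hard : ∀ m ≤ X.dim, ∃ θ : Cor C X X, C.Deg m θ ∧
    comp C (comp C (π m) (mult (h ^ (X.dim - m)))) θ = π m ∧
    comp C (comp C (π (2 * X.dim - m)) θ) (mult (h ^ (X.dim - m))) = π (2 * X.dim - m)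

/-- The first conjecture of Beilinson for `X` and the divisor class `h`, in all codimensions: for
`2 i ≤ n + 1`, `n = dim X`, the multiplication with `h^(n+1-2i)` is an isomorphism of the groups of
homologically trivial classes in `CH^i(X)` and in `CH^(n+1-i)(X)`. -/
def ArithmeticLefschetz (X : 𝒱.Obj) (h : C.A X) : Prop :=
  ∀ i : ℕ, 2 * i ≤ X.dim + 1 →
    (∀ z : C.A X, HomTriv H i z → C.mul (h ^ (X.dim + 1 - 2 * i)) z = zero C X → z = zero C X) ∧
    ∀ w : C.A X, HomTriv H (X.dim + 1 - i) w →
      ∃ z : C.A X, HomTriv H i z ∧ C.mul (h ^ (X.dim + 1 - 2 * i)) z = w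

/-- The homologically trivial classes in `CH^i(X)` belong to the part of weight `2 i - 1`, all `i`:
the projectors `π m`, `m ≠ 2 i - 1`, kill them. -/
def OddPartsOnly (X : 𝒱.Obj) (π : ℕ → Cor C X X) : Prop :=
  ∀ i m : ℕ, m + 1 ≠ 2 * i → ∀ z : C.A X, HomTriv H i z → C.act (π m) z = zero C X

/-- The projectors `π m`, `m ≥ 2 i`, kill the homologically trivial classes in `CH^i(X)`. -/
def NoHighParts (X : 𝒱.Obj) (π : ℕ → Cor C X X) : Prop :=
  ∀ i m : ℕ, 2 * i ≤ m → ∀ z : C.A X, HomTriv H i z → C.act (π m) z = zero C X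

/-- The self-correspondences of degree zero which act as zero on `H^(2i-1)(X)` act nilpotently on the
homologically trivial classes in `CH^i(X)`, all `i`. -/
def DependsOnOddCohomology (X : 𝒱.Obj) : Prop :=
  ∀ (i : ℕ) (Γ : Cor C X X), C.Deg X.dim Γ → Kills H Γ (2 * i - 1) →
    ∃ n : ℕ, ∀ z : C.A X, HomTriv H i z → (C.act Γ)^[n] z = zero C X

/-- The function `ht` has the formal properties of the height pairing of Beilinson and Bloch between
the homologically trivial classes in `CH^i(X)` and in `CH^j(X)`, `i + j = dim X + 1` (the other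
values of `ht` are arbitrary): it is biadditive, the multiplication with a divisor class is
self-adjoint, and the adjoint of the action of a self-correspondence of degree zero is the action of
the transpose. -/
structure IsHeightPairing (X : 𝒱.Obj) (ht : C.A X → C.A X → ℝ) : Prop where
  add_left : ∀ i j : ℕ, i + j = X.dim + 1 → ∀ z z' w : C.A X, HomTriv H i z → HomTriv H i z' →
    HomTriv H j w → ht (z + z') w = ht z w + ht z' w
  add_right : ∀ i j : ℕ, i + j = X.dim + 1 → ∀ z w w' : C.A X, HomTriv H i z → HomTriv H j w →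
    HomTriv H j w' → ht z (w + w') = ht z w + ht z w'
  divisor : ∀ i j : ℕ, i + j = X.dim → ∀ D z w : C.A X, C.Deg 1 D → HomTriv H i z →
    HomTriv H j w → ht (C.mul D z) w = ht z (C.mul D w)
  adjoint : ∀ i j : ℕ, i + j = X.dim + 1 → ∀ (Γ : Cor C X X) (z w : C.A X), C.Deg X.dim Γ →
    HomTriv H i z → HomTriv H j w → ht (C.act Γ z) w = ht z (C.act (transpose C Γ) w)

/-- The second conjecture of Beilinson (Hodge index theorem) for `X`, the divisor class `h` and the
height pairing `ht`, in all codimensions: for `2 i ≤ n + 1`, `n = dim X`, and homologically trivial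
`z ≠ 0` in `CH^i(X)` with `h^(n+2-2i) z = 0` we have `(-1)^i (z, h^(n+1-2i) z) > 0`. -/
def HodgeIndex (X : 𝒱.Obj) (h : C.A X) (ht : C.A X → C.A X → ℝ) : Prop :=
  ∀ i : ℕ, 2 * i ≤ X.dim + 1 → ∀ z : C.A X, HomTriv H i z → z ≠ zero C X →
    C.mul (h ^ (X.dim + 2 - 2 * i)) z = zero C X →
    0 < (-1) ^ i * ht z (C.mul (h ^ (X.dim + 1 - 2 * i)) z)

/-- The same only for the classes `z` in the part of weight `2 i - 1`. -/
def OddHodgeIndex (X : 𝒱.Obj) (h : C.A X) (π : ℕ → Cor C X X) (ht : C.A X → C.A X → ℝ) : Prop :=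
  ∀ i : ℕ, 1 ≤ i → 2 * i ≤ X.dim + 1 → ∀ z : C.A X, HomTriv H i z → C.act (π (2 * i - 1)) z = z →
    z ≠ zero C X → C.mul (h ^ (X.dim + 2 - 2 * i)) z = zero C X →
    0 < (-1) ^ i * ht z (C.mul (h ^ (X.dim + 1 - 2 * i)) z)

/-- The height pairing is nondegenerate (on the left, which is enough if it is symmetric): a
homologically trivial class in `CH^i(X)` which is orthogonal to all the homologically trivial classes
in `CH^j(X)`, `i + j = dim X + 1`, is zero. -/
def IsNondegenerate (X : 𝒱.Obj) (ht : C.A X → C.A X → ℝ) : Prop :=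
  ∀ i j : ℕ, i + j = X.dim + 1 → ∀ z : C.A X, HomTriv H i z →
    (∀ w : C.A X, HomTriv H j w → ht z w = 0) → z = zero C X

end Pool.Agent.N166.HI
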