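import Pool.Agent.N166.HI.Core
import Pool.Agent.N166.HI.Stm
import Pool.Agent.N567.MD.BrM

/-!
# Beilinson's conjectures on height pairings for one variety: proofs
-/

set_option autoImplicit false

open CategoryTheory AlgebraicGeometry

universe u v w

namespace Pool.Agent.N166.HI

open Pool.Agent.H914 Pool.Agent.H914.VarClass Pool.Agent.H914.VarClass.Obj
open Pool.Agent.W492.BB (TheoryData WeilTheoryData)
open Pool.Agent.W550.Corr (dg act_dg act_sum)
open Pool.Agent.N164 (Prim.IsChowTheory Prim.IsWeilTheory Prim.Cor Prim.HomTriv Prim.Kills)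
open Pool.Agent.X308.S (act_deg zero_of_neg zero_of_top)
open Pool.Agent.TH133 (act_mem0)

attribute [-instance] Pool.Agent.TH829.Kim.chCommRing

variable {k : Type u} [Field k] {𝒱 : VarClass k} {C : TheoryData.{u, v, 0} 𝒱 ℚ} {K : Type w}
  [Field K] {H : WeilTheoryData.{u, v, w} C K} {X : 𝒱.Obj} {h : C.A X} {π : ℕ → Prim.Cor C X X}

/-- The homologically trivial classes of codimension `i`. -/
def homT (H : WeilTheoryData.{u, v, w} C K) (X : 𝒱.Obj) (i : ℤ) : Submodule ℚ (C.A X) where
  carrier := {z | z ∈ C.gr X i ∧ H.cl z = 0}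
  zero_mem' := ⟨Submodule.zero_mem _, map_zero _⟩
  add_mem' := by
    rintro a b ⟨ha, ha'⟩ ⟨hb, hb'⟩
    exact ⟨Submodule.add_mem _ ha hb, by rw [map_add, ha', hb', add_zero]⟩
  smul_mem' := by
    rintro c a ⟨ha, ha'⟩
    refine ⟨Submodule.smul_mem _ c ha, ?_⟩
    have h1 : c • a = (c • (1 : C.A X)) * a := by rw [smul_mul_assoc, one_mul]
    change H.cl (c • a) = 0
    rw [h1, map_mul, ha', mul_zero]

/-- The multiplication with `h`. -/
noncomputable def lin (h : C.A X) : Module.End ℚ (C.A X) := LinearMap.mulLeft ℚ h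

lemma lin_pow (h : C.A X) (a : ℕ) (z : C.A X) : (lin h ^ a) z = h ^ a * z := by
  rw [lin, LinearMap.pow_mulLeft]
  rfl

/-- The projectors. -/
noncomputable def proj (π : ℕ → Prim.Cor C X X) (m : ℤ) : Module.End ℚ (C.A X) :=
  if 0 ≤ m then C.actL (π m.toNat) else 0

lemma proj_nat (m : ℕ) (z : C.A X) : proj π (m : ℤ) z = C.act (π m) z := by
  rw [proj, if_pos (by positivity), Int.toNat_natCast]
  rfl

lemma proj_neg {m : ℤ} (hm : m < 0) (z : C.A X) : proj π m z = 0 := by
  rw [proj, if_neg (by omega)]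
  rfl

section core

variable (hC : Prim.IsChowTheory C) (hH : Prim.IsWeilTheory H)
include hC hH

lemma core (hL : IsLefschetzCK H X h π) : Core X.dim (homT H X) (lin h) (proj π) := by
  have h1 := N164.Bridge.chow hC
  have h2 := N164.Bridge.weil hH
  have hck : TH133.IsCK H X π := N164.Bridge.isCK_iff.1 hL.ck
  have hmult : ∀ (D z : C.A X), C.act (mult D) z = D * z := fun D z => C.act_mulCorr D z
  have hcomm : ∀ (m : ℕ) (z : C.A X), C.act (π (m + 2)) (h * z) = h * C.act (π m) z := by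
    intro m z
    have h3 : C.act (C.comp (π m) (mult h)) z = C.act (C.comp (mult h) (π (m + 2))) z :=
      congrArg (fun Γ => C.act Γ z) (hL.comm m)
    rw [C.act_comp, C.act_comp, hmult, hmult] at h3
    exact h3.symm
  have hsum : ∀ z : C.A X, z = ∑ m ∈ Finset.range (2 * X.dim + 1), C.act (π m) z := by
    intro z
    rw [← act_sum, hck.sum, act_dg]
  have hidem : ∀ (m : ℕ) (z : C.A X), C.act (π m) (C.act (π m) z) = C.act (π m) z := by
    intro m z
    rw [← C.act_comp, hck.idem]
  have horth : ∀ (m l : ℕ) (_ : m ≠ l) (z : C.A X), C.act (π m) (C.act (π l) z) = 0 := by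
    intro m l hml z
    rw [← C.act_comp, hck.orth l m (Ne.symm hml), TheoryData.act_zero]
  have hlow : ∀ (m : ℕ) (_ : m < 2) (z : C.A X), C.act (π m) (h * z) = 0 := by
    intro m hm z
    conv_lhs => rw [hsum z, Finset.mul_sum]
    have e : ∀ l ∈ Finset.range (2 * X.dim + 1), h * C.act (π l) z =
        C.act (π (l + 2)) (h * z) := fun l _ => (hcomm l z).symm
    rw [Finset.sum_congr rfl e]
    change C.actL (π m) _ = 0
    rw [map_sum]
    exact Finset.sum_eq_zero fun l _ => horth m (l + 2) (by omega) _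
  have hpow : ∀ (a m : ℕ) (z : C.A X), C.act (π (m + 2 * a)) (h ^ a * z) =
      h ^ a * C.act (π m) z := by
    intro a
    induction a with
    | zero => intro m z; simp
    | succ a ih =>
      intro m z
      rw [pow_succ', mul_assoc, mul_assoc, ← ih m z, ← hcomm]
      rfl
  refine ⟨?_, ?_, ?_, ?_, ?_, ?_, ?_, ?_, ?_, ?_⟩
  · intro i hi z hz
    exact zero_of_neg hz.1 hi
  · intro i hi z hz
    exact zero_of_top hz.1 hi
  · intro i z hz
    have h3 := C.mul_mem hL.deg hz.1
    refine ⟨?_, ?_⟩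
    · rw [add_comm]; exact h3
    · change H.cl (h * z) = 0
      rw [map_mul, hz.2, mul_zero]
  · intro m i z hz
    rcases lt_or_ge m 0 with hm | hm
    · rw [proj_neg hm]; exact Submodule.zero_mem _
    · obtain ⟨m, rfl⟩ := Int.eq_ofNat_of_zero_le hm
      rw [proj_nat]
      refine ⟨act_mem0 C (hck.deg m) hz.1, ?_⟩
      rw [W492.BB.cl_act H, hz.2, TheoryData.act_map_zero]
  · intro m z
    rcases lt_or_ge m 0 with hm | hm
    · rw [proj_neg hm, proj_neg hm]
    · obtain ⟨m, rfl⟩ := Int.eq_ofNat_of_zero_le hm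
      rw [proj_nat, proj_nat, hidem]
  · rintro m (hm | hm) z
    · exact proj_neg hm z
    · obtain ⟨m, rfl⟩ := Int.eq_ofNat_of_zero_le (show 0 ≤ m by omega)
      rw [proj_nat, hck.out m (by omega), TheoryData.act_zero]
  · intro z
    conv_lhs => rw [hsum z]
    exact Finset.sum_congr rfl fun m _ => (proj_nat m z).symm
  · intro m z
    change proj π (m + 2) (h * z) = h * proj π m z
    rcases lt_or_ge m 0 with hm | hm
    · rw [proj_neg hm, mul_zero]
      rcases lt_or_ge (m + 2) 0 with hm2 | hm2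
      · exact proj_neg hm2 _
      · obtain ⟨l, hl⟩ := Int.eq_ofNat_of_zero_le hm2
        rw [hl, proj_nat]
        exact hlow l (by omega) z
    · obtain ⟨m, rfl⟩ := Int.eq_ofNat_of_zero_le hm
      rw [proj_nat]
      have e : (m : ℤ) + 2 = ((m + 2 : ℕ) : ℤ) := by push_cast; rfl
      rw [e, proj_nat, hcomm]
  · intro m hm i z _ hpz hz0
    rw [proj_nat] at hpz
    rw [lin_pow] at hz0
    obtain ⟨θ, -, h3, -⟩ := hL.hard m hm
    have h4 : C.act (C.comp (C.comp (π m) (mult (h ^ (X.dim - m)))) θ) z = C.act (π m) z :=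
      congrArg (fun Γ => C.act Γ z) h3
    rw [C.act_comp, C.act_comp, hmult, hpz, hz0, TheoryData.act_map_zero] at h4
    exact h4.symm
  · intro m hm i y hy hpy
    have e : 2 * (X.dim : ℤ) - m = ((2 * X.dim - m : ℕ) : ℤ) := by
      push_cast [Nat.cast_sub (show m ≤ 2 * X.dim by omega)]
      ring
    rw [e, proj_nat] at hpy
    obtain ⟨θ, hθ, -, h3⟩ := hL.hard m hm
    have h4 : C.act (C.comp (C.comp (π (2 * X.dim - m)) θ) (mult (h ^ (X.dim - m)))) y =
        C.act (π (2 * X.dim - m)) y := congrArg (fun Γ => C.act Γ y) h3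
    rw [C.act_comp, C.act_comp, hmult, hpy] at h4
    refine ⟨C.act (π m) (C.act θ y), ⟨act_mem0 C (hck.deg m) (act_deg hθ hy.1 (by ring)), ?_⟩,
      ?_, ?_⟩
    · rw [W492.BB.cl_act H, W492.BB.cl_act H, hy.2, TheoryData.act_map_zero,
        TheoryData.act_map_zero]
    · rw [proj_nat, hidem]
    · rw [lin_pow, ← hpow, h4]
      have e2 : m + 2 * (X.dim - m) = 2 * X.dim - m := by omega
      rw [e2, hpy]

end core

lemma homTriv_iff {i : ℕ} {z : C.A X} : Prim.HomTriv H i z ↔ z ∈ homT H X i := Iff.rfl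

lemma al_iff : ArithmeticLefschetz H X h ↔
    Inj X.dim (homT H X) (lin h) ∧ Surj X.dim (homT H X) (lin h) := by
  constructor
  · intro hA
    refine ⟨fun i hi z hz h0 => (hA i hi).1 z hz (by rw [lin_pow] at h0; exact h0),
      fun i hi w hw => ?_⟩
    obtain ⟨z, hz, hzw⟩ := (hA i hi).2 w (by
      refine homTriv_iff.2 ?_
      convert hw using 2
      push_cast [Nat.cast_sub (show i ≤ X.dim + 1 by omega)]
      ring)
    exact ⟨z, hz, by rw [lin_pow]; exact hzw⟩
  · rintro ⟨h1, h2⟩ i hi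
    refine ⟨fun z hz h0 => h1 i hi z hz (by rw [lin_pow]; exact h0), fun w hw => ?_⟩
    obtain ⟨z, hz, hzw⟩ := h2 i hi w (by
      have h3 := homTriv_iff.1 hw
      convert h3 using 2
      push_cast [Nat.cast_sub (show i ≤ X.dim + 1 by omega)]
      ring)
    exact ⟨z, hz, by rw [lin_pow] at hzw; exact hzw⟩

lemma van_iff (hc : Core X.dim (homT H X) (lin h) (proj π)) :
    OddPartsOnly H X π ↔ Van (homT H X) (proj π) := by
  constructor
  · intro hA i m him z hz
    rcases lt_or_ge i 0 with h1 | h1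
    · rw [hc.neg i h1 z hz, map_zero]
    rcases lt_or_ge m 0 with h2 | h2
    · exact proj_neg h2 z
    obtain ⟨i, rfl⟩ := Int.eq_ofNat_of_zero_le h1
    obtain ⟨m, rfl⟩ := Int.eq_ofNat_of_zero_le h2
    rw [proj_nat]
    exact hA i m (by omega) z hz
  · intro hv i m him z hz
    have := hv i m (by omega) z hz
    rw [proj_nat] at this
    exact this

lemma high_iff (hc : Core X.dim (homT H X) (lin h) (proj π)) :
    NoHighParts H X π ↔ ∀ i m : ℤ, 2 * i ≤ m → ∀ z ∈ homT H X i, proj π m z = 0 := by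
  constructor
  · intro hA i m him z hz
    rcases lt_or_ge i 0 with h1 | h1
    · rw [hc.neg i h1 z hz, map_zero]
    obtain ⟨i, rfl⟩ := Int.eq_ofNat_of_zero_le h1
    obtain ⟨m, rfl⟩ := Int.eq_ofNat_of_zero_le (show 0 ≤ m by omega)
    rw [proj_nat]
    exact hA i m (by omega) z hz
  · intro hv i m him z hz
    have := hv i m (by omega) z hz
    rw [proj_nat] at this
    exact this

variable {ht : C.A X → C.A X → ℝ}

lemma hodge_iff' : HodgeIndex H X h ht ↔ Hodge X.dim (homT H X) (lin h) ht := by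
  constructor
  · intro hA i hi z hz h0 h1
    rw [lin_pow] at h1 ⊢
    exact hA i hi z hz h0 h1
  · intro hA i hi z hz h0 h1
    have := hA i hi z hz h0 (by rw [lin_pow]; exact h1)
    rw [lin_pow] at this
    exact this

lemma oddHodge_iff :
    OddHodgeIndex H X h π ht ↔
      ∀ i : ℕ, 2 * i ≤ X.dim + 1 → ∀ z ∈ homT H X i, proj π (2 * i - 1) z = z → z ≠ 0 →
        (lin h ^ (X.dim + 2 - 2 * i)) z = 0 →
          0 < (-1) ^ i * ht z ((lin h ^ (X.dim + 1 - 2 * i)) z) := by
  constructor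
  · intro hA i hi z hz hp h0 h1
    rw [lin_pow] at h1 ⊢
    rcases Nat.eq_zero_or_pos i with rfl | hi0
    · exact absurd (by rw [← hp]; exact proj_neg (by simp) z) h0
    · have e : 2 * (i : ℤ) - 1 = ((2 * i - 1 : ℕ) : ℤ) := by
        push_cast [Nat.cast_sub (show 1 ≤ 2 * i by omega)]
        ring
      rw [e, proj_nat] at hp
      exact hA i hi0 hi z hz hp h0 h1
  · intro hA i hi0 hi z hz hp h0 h1
    have e : 2 * (i : ℤ) - 1 = ((2 * i - 1 : ℕ) : ℤ) := by
      push_cast [Nat.cast_sub (show 1 ≤ 2 * i by omega)]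
      ring
    have := hA i hi z hz (by rw [e, proj_nat]; exact hp) h0 (by rw [lin_pow]; exact h1)
    rw [lin_pow] at this
    exact this

lemma nondeg_iff (hc : Core X.dim (homT H X) (lin h) (proj π)) :
    IsNondegenerate H X ht ↔ Nondeg X.dim (homT H X) ht := by
  constructor
  · intro hA i z hz hw
    rcases lt_or_ge i 0 with h1 | h1
    · exact hc.neg i h1 z hz
    obtain ⟨i, rfl⟩ := Int.eq_ofNat_of_zero_le h1
    rcases lt_or_ge X.dim i with h2 | h2
    · exact hc.top _ (by exact_mod_cast h2) z hz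
    refine hA i (X.dim + 1 - i) (by omega) z hz fun w hw' => hw w ?_
    have h3 := homTriv_iff.1 hw'
    convert h3 using 2
    push_cast [Nat.cast_sub (show i ≤ X.dim + 1 by omega)]
    ring
  · intro hN i j hij z hz hw
    refine hN i z hz fun w hw' => hw w ?_
    refine homTriv_iff.2 ?_
    convert hw' using 2
    omega

lemma isHt (hc : Core X.dim (homT H X) (lin h) (proj π)) (hL : IsLefschetzCK H X h π)
    (hs : IsSelfDual π) (hh : IsHeightPairing H X ht) :
    IsHt X.dim (homT H X) (lin h) (proj π) ht := by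
  have h00 : ht 0 0 = 0 := by
    have := hh.add_left 0 (X.dim + 1) (by omega) 0 0 0 ⟨Submodule.zero_mem _, map_zero _⟩
      ⟨Submodule.zero_mem _, map_zero _⟩ ⟨Submodule.zero_mem _, map_zero _⟩
    rw [add_zero] at this
    linarith
  have hout : ∀ i : ℤ, (i < 0 ∨ (X.dim : ℤ) + 1 < i) → ∀ z ∈ homT H X i,
      ∀ w ∈ homT H X (X.dim + 1 - i), z = 0 ∧ w = 0 := by
    rintro i (hi | hi) z hz w hw
    · exact ⟨hc.neg i hi z hz, hc.top _ (by omega) w hw⟩
    · exact ⟨hc.top i (by omega) z hz, hc.neg _ (by omega) w hw⟩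
  have hcase : ∀ i : ℤ, (i < 0 ∨ (X.dim : ℤ) + 1 < i) ∨
      ∃ a b : ℕ, a + b = X.dim + 1 ∧ i = a ∧ (X.dim : ℤ) + 1 - i = b := by
    intro i
    rcases em (i < 0 ∨ (X.dim : ℤ) + 1 < i) with h1 | h1
    · exact Or.inl h1
    · push Not at h1
      obtain ⟨a, rfl⟩ := Int.eq_ofNat_of_zero_le h1.1
      exact Or.inr ⟨a, X.dim + 1 - a, by omega, rfl, by omega⟩
  refine ⟨?_, ?_, ?_, ?_⟩
  · intro i z hz z' hz' w hw
    rcases hcase i with h1 | ⟨a, b, hab, rfl, hb⟩
    · obtain ⟨rfl, rfl⟩ := hout i h1 z hz w hw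
      obtain ⟨rfl, -⟩ := hout i h1 z' hz' _ hw
      rw [add_zero, h00, add_zero]
    · rw [hb] at hw
      exact hh.add_left a b hab z z' w hz hz' hw
  · intro i z hz w hw w' hw'
    rcases hcase i with h1 | ⟨a, b, hab, rfl, hb⟩
    · obtain ⟨rfl, rfl⟩ := hout i h1 z hz w hw
      obtain ⟨-, rfl⟩ := hout i h1 _ hz w' hw'
      rw [add_zero, h00, add_zero]
    · rw [hb] at hw hw'
      exact hh.add_right a b hab z w w' hz hw hw'
  · intro i z hz w hw
    rcases em (i < 0 ∨ (X.dim : ℤ) < i) with h1 | h1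
    · have h2 : z = 0 ∧ w = 0 := by
        rcases h1 with h1 | h1
        · exact ⟨hc.neg i h1 z hz, hc.top _ (by omega) w hw⟩
        · exact ⟨hc.top i h1 z hz, hc.neg _ (by omega) w hw⟩
      rw [h2.1, h2.2, map_zero]
    · push Not at h1
      obtain ⟨a, rfl⟩ := Int.eq_ofNat_of_zero_le h1.1
      have e : (X.dim : ℤ) - a = ((X.dim - a : ℕ) : ℤ) := by omega
      rw [e] at hw
      exact hh.divisor a (X.dim - a) (by omega) h z w hL.deg hz hw
  · intro i m hm0 hm1 z hz w hw
    obtain ⟨m, rfl⟩ := Int.eq_ofNat_of_zero_le hm0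
    have hm2 : m ≤ 2 * X.dim := by omega
    have e : 2 * (X.dim : ℤ) - m = ((2 * X.dim - m : ℕ) : ℤ) := by omega
    rw [e, proj_nat, proj_nat]
    rcases hcase i with h1 | ⟨a, b, hab, rfl, hb⟩
    · obtain ⟨rfl, rfl⟩ := hout i h1 z hz w hw
      rw [TheoryData.act_map_zero, TheoryData.act_map_zero]
    · rw [hb] at hw
      rw [hh.adjoint a b hab (π m) z w (hL.ck.deg m) hz hw, hs m hm2]

/-- **Beilinson's conjectures for one variety.** -/
theorem main (hC : Prim.IsChowTheory C) (hH : Prim.IsWeilTheory H)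
    (hL : IsLefschetzCK H X h π) :
    (ArithmeticLefschetz H X h ↔ OddPartsOnly H X π) ∧
    ∀ ht : C.A X → C.A X → ℝ, IsSelfDual π → IsHeightPairing H X ht →
      (HodgeIndex H X h ht ↔ NoHighParts H X π ∧ OddHodgeIndex H X h π ht) ∧
      (HodgeIndex H X h ht → (ArithmeticLefschetz H X h ↔ IsNondegenerate H X ht)) := by
  have hc := core hC hH hL
  have h1 : ArithmeticLefschetz H X h ↔ OddPartsOnly H X π := by
    rw [al_iff, van_iff hc]
    exact ⟨fun h => hc.van h.1 h.2, fun h => ⟨hc.inj_of_van h, hc.surj_of_van h⟩⟩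
  refine ⟨h1, fun ht hs hh => ?_⟩
  have hI := isHt hc hL hs hh
  refine ⟨?_, fun hH' => ⟨fun hA => ?_, fun hN => ?_⟩⟩
  · rw [hodge_iff', hc.hodge_iff hI, high_iff hc, oddHodge_iff]
  · rw [nondeg_iff hc]
    exact hc.nondeg hI (hodge_iff'.1 hH') (al_iff.1 hA).2
  · rw [h1, van_iff hc]
    exact hc.van_of_nondeg hI (hodge_iff'.1 hH') ((nondeg_iff hc).1 hN)

open Pool.Agent.TH829.Kim (R0 toA ofA toA_ofA) in
/-- **Independence of the divisor class and of the decomposition.** -/
theorem main_kimura (hC : Prim.IsChowTheory C) (hH : Prim.IsWeilTheory H)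
    (hL : IsLefschetzCK H X h π) (hK : N567.Mid.IsKimuraFinite C X) :
    List.TFAE [ArithmeticLefschetz H X h,
      ∀ (h' : C.A X) (π' : ℕ → Prim.Cor C X X), IsLefschetzCK H X h' π' →
        ArithmeticLefschetz H X h',
      OddPartsOnly H X π,
      DependsOnOddCohomology H X] := by
  have i1 := N164.Bridge.chow hC
  have i2 := N164.Bridge.weil hH
  have h43 : DependsOnOddCohomology H X → ∀ π' : ℕ → Prim.Cor C X X,
      N164.Prim.IsCK H X π' → OddPartsOnly H X π' := by
    intro hD π' hπ' i m him z hz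
    have hck : TH133.IsCK H X π' := N164.Bridge.isCK_iff.1 hπ'
    obtain ⟨n, hn⟩ := hD i (π' m) (hπ'.deg m) (hπ'.act_ne m _ (by omega))
    have hz' : Prim.HomTriv H i (C.act (π' m) z) := by
      refine ⟨act_mem0 C (hck.deg m) hz.1, ?_⟩
      change H.cl (C.act (π' m) z) = 0
      have hz2 : H.cl z = 0 := hz.2
      rw [W492.BB.cl_act H, hz2, TheoryData.act_map_zero]
    have hid : ∀ n : ℕ, (C.act (π' m))^[n] (C.act (π' m) z) = C.act (π' m) z := by
      intro n
      induction n with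
      | zero => rfl
      | succ n ih => rw [Function.iterate_succ_apply', ih, ← C.act_comp, hck.idem]
    rw [← hid n]
    exact hn _ hz'
  tfae_have 1 ↔ 3 := (main hC hH hL).1
  tfae_have 2 → 1 := fun h2 => h2 h π hL
  tfae_have 4 → 2 := fun h4 h' π' hL' => (main hC hH hL').1.2 (h43 h4 π' hL'.ck)
  tfae_have 3 → 4 := by
    intro h3 i Γ hΓ hk
    have hc := core hC hH hL
    have hck : TH133.IsCK H X π := N164.Bridge.isCK_iff.1 hL.ck
    have hself : ∀ z : C.A X, Prim.HomTriv H i z → z = 0 ∨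
        (1 ≤ i ∧ C.act (π (2 * i - 1)) z = z) := by
      intro z hz
      rcases Nat.eq_zero_or_pos i with rfl | hi
      · left
        rw [hc.sum z]
        exact Finset.sum_eq_zero fun m _ => by rw [proj_nat]; exact h3 0 m (by omega) z hz
      · right
        refine ⟨hi, ?_⟩
        have e : ((2 * i - 1 : ℕ) : ℤ) = 2 * (i : ℤ) - 1 := by omega
        have h5 := hc.eq_comp (l := ((2 * i - 1 : ℕ) : ℤ)) (z := z) fun m hm =>
          (van_iff hc).1 h3 i m (by rw [← e]; exact hm) z hz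
        rwa [proj_nat] at h5
    rcases Nat.eq_zero_or_pos i with rfl | hi
    · refine ⟨0, fun z hz => ?_⟩
      rcases hself z hz with h5 | h5
      · exact h5
      · exact absurd h5.1 (by omega)
    have hst : ∀ z : C.A X, Prim.HomTriv H i z → Prim.HomTriv H i (C.act Γ z) := by
      intro z hz
      refine ⟨act_mem0 C hΓ hz.1, ?_⟩
      change H.cl (C.act Γ z) = 0
      have hz2 : H.cl z = 0 := hz.2
      rw [W492.BB.cl_act H, hz2, TheoryData.act_map_zero]
    have hfix : ∀ z : C.A X, Prim.HomTriv H i z → C.act (π (2 * i - 1)) z = z := by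
      intro z hz
      rcases hself z hz with h5 | h5
      · rw [h5, TheoryData.act_map_zero]
      · exact h5.2
    set N : C.A (X.prod X) := C.comp (C.comp (π (2 * i - 1)) Γ) (π (2 * i - 1)) with hN
    have hNm : N ∈ C.gr (X.prod X) X.dim :=
      X308.S.comp_deg (X308.S.comp_deg (hck.deg _) hΓ (by ring)) (hck.deg _) (by ring)
    have hNcl : H.cl N = 0 := by
      apply X308.S.cl_zero_of
      intro m a ha
      rw [hN, TH133.actH_comp, TH133.actH_comp]
      rcases eq_or_ne m ((2 * i - 1 : ℕ) : ℤ) with hm | hm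
      · rw [hck.act_self _ a (by rw [← hm]; exact ha)]
        have h6 : H.act (H.cl Γ) a = 0 := hk a (by
          have e : (2 * (i : ℤ) - 1) = m := by omega
          rw [e]; exact ha)
        rw [h6, TheoryData.act_map_zero]
      · rw [hck.act_ne _ m a hm ha, TheoryData.act_map_zero, TheoryData.act_map_zero]
    obtain ⟨n, hn⟩ := N567.Mid.nil_of_kimura hC hH hK (ofA N hNm) hNcl
    refine ⟨n, fun z hz => ?_⟩
    have hit : ∀ n : ℕ, Prim.HomTriv H i ((C.act Γ)^[n] z) ∧
        (C.act Γ)^[n] z = (C.act N)^[n] z := by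
      intro n
      induction n with
      | zero => exact ⟨hz, rfl⟩
      | succ n ih =>
        rw [Function.iterate_succ_apply', Function.iterate_succ_apply', ← ih.2]
        refine ⟨hst _ ih.1, ?_⟩
        rw [hN, C.act_comp, C.act_comp, hfix _ ih.1, hfix _ (hst _ ih.1)]
    rw [(hit n).2]
    have h7 := N567.MD.act_toA_pow (H := H) (ofA N hNm) n z
    rw [hn, map_zero, TheoryData.act_zero, toA_ofA] at h7
    exact h7.symm
  tfae_finish

end Pool.Agent.N166.HI
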