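import Mathlib

/-!
# Lefschetz operators on groups with two gradings: linear algebra
-/

set_option autoImplicit false

namespace Pool.Agent.N166.HI

variable {M : Type*} [AddCommGroup M] [Module ℚ M]

/-- Groups `T i` (homologically trivial cycles of codimension `i`), projectors `p m` and the
Lefschetz operator `L`. -/
structure Core (n : ℕ) (T : ℤ → Submodule ℚ M) (L : Module.End ℚ M) (p : ℤ → Module.End ℚ M) :
    Prop where
  neg : ∀ i : ℤ, i < 0 → ∀ z ∈ T i, z = 0
  top : ∀ i : ℤ, (n : ℤ) < i → ∀ z ∈ T i, z = 0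
  Lmem : ∀ i : ℤ, ∀ z ∈ T i, L z ∈ T (i + 1)
  pmem : ∀ m i : ℤ, ∀ z ∈ T i, p m z ∈ T i
  idem : ∀ (m : ℤ) (z : M), p m (p m z) = p m z
  out : ∀ m : ℤ, (m < 0 ∨ 2 * (n : ℤ) < m) → ∀ z : M, p m z = 0
  sum : ∀ z : M, z = ∑ m ∈ Finset.range (2 * n + 1), p m z
  comm : ∀ (m : ℤ) (z : M), p (m + 2) (L z) = L (p m z)
  inj : ∀ m : ℕ, m ≤ n → ∀ i : ℤ, ∀ z ∈ T i, p m z = z → (L ^ (n - m)) z = 0 → z = 0
  surj : ∀ m : ℕ, m ≤ n → ∀ i : ℤ, ∀ y ∈ T (i + (n - m)), p (2 * n - m) y = y →
    ∃ z ∈ T i, p m z = z ∧ (L ^ (n - m)) z = y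

variable {n : ℕ} {T : ℤ → Submodule ℚ M} {L : Module.End ℚ M} {p : ℤ → Module.End ℚ M}

namespace Core

variable (h : Core n T L p)
include h

lemma powMem (a : ℕ) : ∀ i : ℤ, ∀ z ∈ T i, (L ^ a) z ∈ T (i + a) := by
  induction a with
  | zero => intro i z hz; simpa using hz
  | succ a ih =>
    intro i z hz
    rw [pow_succ', Module.End.mul_apply]
    have := h.Lmem _ _ (ih i z hz)
    convert this using 2
    push_cast
    ring

lemma powComm (a : ℕ) : ∀ (m : ℤ) (z : M), p (m + 2 * a) ((L ^ a) z) = (L ^ a) (p m z) := by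
  induction a with
  | zero => intro m z; simp
  | succ a ih =>
    intro m z
    rw [pow_succ', Module.End.mul_apply, Module.End.mul_apply, ← ih m z, ← h.comm]
    congr 2
    push_cast
    ring

omit h in
lemma powSplit (a b : ℕ) (z : M) : (L ^ (a + b)) z = (L ^ a) ((L ^ b) z) := by
  rw [pow_add, Module.End.mul_apply]

/-- The injectivity of the operators on homologically trivial classes. -/
def _root_.Pool.Agent.N166.HI.Inj (n : ℕ) (T : ℤ → Submodule ℚ M) (L : Module.End ℚ M) : Prop :=
  ∀ i : ℕ, 2 * i ≤ n + 1 → ∀ z ∈ T i, (L ^ (n + 1 - 2 * i)) z = 0 → z = 0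

/-- The surjectivity of the operators on homologically trivial classes. -/
def _root_.Pool.Agent.N166.HI.Surj (n : ℕ) (T : ℤ → Submodule ℚ M) (L : Module.End ℚ M) : Prop :=
  ∀ i : ℕ, 2 * i ≤ n + 1 → ∀ w ∈ T (n + 1 - i), ∃ z ∈ T i, (L ^ (n + 1 - 2 * i)) z = w

omit h in
lemma _root_.Pool.Agent.N166.HI.dummy : True := trivial

lemma lowA (hi : Inj n T L) : ∀ m : ℕ, m ≤ n → ∀ i : ℤ, 2 * i ≤ m → ∀ z ∈ T i, p m z = z →
    z = 0 := by
  intro m
  induction m using Nat.strong_induction_on with
  | _ m ih =>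
    intro hm i him z hz hpz
    rcases lt_or_ge i 0 with hneg | hpos
    · exact h.neg i hneg z hz
    obtain ⟨i, rfl⟩ := Int.eq_ofNat_of_zero_le hpos
    have hy : (L ^ (n - m + 1)) z ∈ T ((i : ℤ) + (n - m + 1 : ℕ)) := h.powMem _ _ z hz
    have hpy : p ((m : ℤ) + 2 * (n - m + 1 : ℕ)) ((L ^ (n - m + 1)) z) = (L ^ (n - m + 1)) z := by
      rw [h.powComm, hpz]
    have hy0 : (L ^ (n - m + 1)) z = 0 := by
      rcases lt_or_ge m 2 with h2 | h2
      · rw [← hpy]
        exact h.out _ (Or.inr (by push_cast [Nat.cast_sub hm]; omega)) _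
      · obtain ⟨z', hz', hpz', hLz'⟩ := h.surj (m - 2) (by omega) ((i : ℤ) - 1)
          ((L ^ (n - m + 1)) z) (by
            convert hy using 2
            push_cast [Nat.cast_sub hm, Nat.cast_sub h2]
            ring) (by
            convert hpy using 2
            congr 1
            push_cast [Nat.cast_sub hm, Nat.cast_sub h2]
            ring)
        have := ih (m - 2) (by omega) (by omega) ((i : ℤ) - 1) (by omega) z' hz' hpz'
        rw [← hLz', this, map_zero]
    refine hi i (by omega) z hz ?_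
    have e : n + 1 - 2 * i = (m - 2 * i) + (n - m + 1) := by omega
    rw [e, powSplit, hy0, map_zero]

/-- The vanishing in weights at least twice the codimension. -/
lemma vanishA (hi : Inj n T L) (i m : ℤ) (him : 2 * i ≤ m) (z : M) (hz : z ∈ T i) : p m z = 0 := by
  have hz' := h.pmem m i z hz
  have hp := h.idem m z
  set y := p m z with hy
  clear_value y
  rcases lt_or_ge m 0 with h1 | h1
  · rw [← hp]; exact h.out m (Or.inl h1) y
  rcases lt_or_ge (2 * (n : ℤ)) m with h2 | h2
  · rw [← hp]; exact h.out m (Or.inr h2) y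
  obtain ⟨m, rfl⟩ := Int.eq_ofNat_of_zero_le h1
  rcases le_or_gt m n with h3 | h3
  · exact h.lowA hi m h3 i him y hz' hp
  · have h4 : m ≤ 2 * n := by omega
    obtain ⟨x, hx, hpx, hLx⟩ := h.surj (2 * n - m) (by omega) (i - (m - n)) y (by
        convert hz' using 2
        push_cast [Nat.cast_sub h4]
        ring) (by
        convert hp using 2
        congr 1
        push_cast [Nat.cast_sub h4]
        ring)
    have := h.lowA hi (2 * n - m) (by omega) (i - (m - n)) (by
      push_cast [Nat.cast_sub h4]; omega) x hx hpx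
    rw [← hLx, this, map_zero]

lemma lowB (hs : Surj n T L) : ∀ i : ℕ, ∀ m : ℤ, m + 2 ≤ 2 * i → ∀ z ∈ T i, p m z = z →
    z = 0 := by
  intro i
  induction i using Nat.strong_induction_on with
  | _ i ih =>
    intro m hmi z hz hpz
    rcases lt_or_ge m 0 with h1 | h1
    · rw [← hpz]; exact h.out m (Or.inl h1) z
    rcases lt_or_ge (2 * (n : ℤ)) m with h2 | h2
    · rw [← hpz]; exact h.out m (Or.inr h2) z
    rcases lt_or_ge n i with h0 | h0
    · exact h.top i (by exact_mod_cast h0) z hz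
    obtain ⟨m, rfl⟩ := Int.eq_ofNat_of_zero_le h1
    rcases le_or_gt m n with h3 | h3
    · rcases le_or_gt (2 * i) (n + 2) with h4 | h4
      · have hi1 : 1 ≤ i := by omega
        have hw : (L ^ (n + 2 - 2 * i)) z ∈ T ((n : ℤ) + 1 - ((i - 1 : ℕ) : ℤ)) := by
          have := h.powMem (n + 2 - 2 * i) i z hz
          convert this using 2
          push_cast [Nat.cast_sub h4, Nat.cast_sub hi1]
          ring
        obtain ⟨u, hu, hLu⟩ := hs (i - 1) (by omega) _ hw
        have hpw : p ((m : ℤ) + 2 * (n + 2 - 2 * i : ℕ)) ((L ^ (n + 2 - 2 * i)) z) =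
            (L ^ (n + 2 - 2 * i)) z := by
          rw [h.powComm, hpz]
        have hw0 : (L ^ (n + 2 - 2 * i)) z = 0 := by
          rw [← hpw, ← hLu]
          have e : ((m : ℤ) + 2 * (n + 2 - 2 * i : ℕ)) =
              ((m : ℤ) - 2) + 2 * ((n + 1 - 2 * (i - 1) : ℕ) : ℤ) := by
            have : n + 1 - 2 * (i - 1) = (n + 2 - 2 * i) + 1 := by omega
            rw [this]
            push_cast
            ring
          rw [e, h.powComm]
          have := ih (i - 1) (by omega) ((m : ℤ) - 2) (by omega) (p ((m : ℤ) - 2) u)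
            (h.pmem _ _ u hu) (h.idem _ u)
          rw [this, map_zero]
        refine h.inj m h3 i z hz hpz ?_
        have e : n - m = (2 * i - m - 2) + (n + 2 - 2 * i) := by omega
        rw [e, powSplit, hw0, map_zero]
      · obtain ⟨u, hu, hLu⟩ := hs (n + 1 - i) (by omega) z (by
          convert hz using 2
          push_cast [Nat.cast_sub (show i ≤ n + 1 by omega)]
          ring)
        rw [← hpz, ← hLu]
        have e : (m : ℤ) = ((m : ℤ) - 4 * i + 2 * n + 2) + 2 * ((n + 1 - 2 * (n + 1 - i) : ℕ) : ℤ) := by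
          have : n + 1 - 2 * (n + 1 - i) = 2 * i - (n + 1) := by omega
          rw [this]
          push_cast [Nat.cast_sub (show n + 1 ≤ 2 * i by omega)]
          ring
        rw [e, h.powComm]
        have := ih (n + 1 - i) (by omega) ((m : ℤ) - 4 * i + 2 * n + 2) (by
          push_cast [Nat.cast_sub (show i ≤ n + 1 by omega)]
          omega) (p ((m : ℤ) - 4 * i + 2 * n + 2) u) (h.pmem _ _ u hu) (h.idem _ u)
        rw [this, map_zero]
    · have h4 : m ≤ 2 * n := by omega
      obtain ⟨x, hx, hpx, hLx⟩ := h.surj (2 * n - m) (by omega) ((i : ℤ) - (m - n)) z (by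
          convert hz using 2
          push_cast [Nat.cast_sub h4]
          ring) (by
          convert hpz using 2
          congr 1
          push_cast [Nat.cast_sub h4]
          ring)
      have hx0 : x = 0 := by
        rcases lt_or_ge ((i : ℤ) - (m - n)) 0 with h5 | h5
        · exact h.neg _ h5 x hx
        · obtain ⟨j, hj⟩ := Int.eq_ofNat_of_zero_le h5
          have hx' : x ∈ T (j : ℤ) := by
            have e : (i : ℤ) - (m - n) = (j : ℤ) := hj
            rw [← e]; exact hx
          refine ih j (by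
            have : (j : ℤ) = (i : ℤ) - (m - n) := hj.symm
            omega) ((2 * n - m : ℕ) : ℤ) (by
            have : (j : ℤ) = (i : ℤ) - (m - n) := hj.symm
            omega) x hx' hpx
      rw [← hLx, hx0, map_zero]

/-- The vanishing in weights at most twice the codimension minus two. -/
lemma vanishB (hs : Surj n T L) (i m : ℤ) (him : m + 2 ≤ 2 * i) (z : M) (hz : z ∈ T i) :
    p m z = 0 := by
  have hz' := h.pmem m i z hz
  have hp := h.idem m z
  rcases lt_or_ge i 0 with h1 | h1
  · exact h.neg i h1 _ hz'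
  obtain ⟨i, rfl⟩ := Int.eq_ofNat_of_zero_le h1
  exact h.lowB hs i m him _ hz' hp

/-- If all components but one vanish, the class is equal to this component. -/
lemma eq_comp {l : ℤ} {z : M} (hz : ∀ m : ℤ, m ≠ l → p m z = 0) : p l z = z := by
  rcases em (0 ≤ l ∧ l ≤ 2 * (n : ℤ)) with h1 | h1
  · obtain ⟨l, rfl⟩ := Int.eq_ofNat_of_zero_le h1.1
    have h2 : l ∈ Finset.range (2 * n + 1) := by
      rw [Finset.mem_range]; omega
    conv_rhs => rw [h.sum z]
    rw [Finset.sum_eq_single_of_mem l h2 fun m _ hm => hz m (by exact_mod_cast hm)]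
  · have h2 : z = 0 := by
      rw [h.sum z]
      refine Finset.sum_eq_zero fun m hm => hz m ?_
      rintro rfl
      rw [Finset.mem_range] at hm
      apply h1
      omega
    rw [h2, map_zero]

/-- The vanishing outside the weight `2 i - 1`. -/
def _root_.Pool.Agent.N166.HI.Van (T : ℤ → Submodule ℚ M) (p : ℤ → Module.End ℚ M) : Prop :=
  ∀ i m : ℤ, m ≠ 2 * i - 1 → ∀ z ∈ T i, p m z = 0

lemma van (hi : Inj n T L) (hs : Surj n T L) : Van T p := by
  intro i m him z hz
  rcases lt_or_gt_of_ne him with h1 | h1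
  · exact h.vanishB hs i m (by omega) z hz
  · exact h.vanishA hi i m (by omega) z hz

lemma inj_of_van (hv : Van T p) : Inj n T L := by
  intro i hi z hz hLz
  have hp : p (2 * (i : ℤ) - 1) z = z := h.eq_comp fun m hm => hv i m hm z hz
  rcases Nat.eq_zero_or_pos i with rfl | hi0
  · rw [← hp]
    exact h.out _ (Or.inl (by simp)) z
  · refine h.inj (2 * i - 1) (by omega) i z hz ?_ ?_
    · convert hp using 2
      push_cast [Nat.cast_sub (show 1 ≤ 2 * i by omega)]
      rfl
    · have : n - (2 * i - 1) = n + 1 - 2 * i := by omega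
      rw [this]
      exact hLz

lemma surj_of_van (hv : Van T p) : Surj n T L := by
  intro i hi w hw
  rcases Nat.eq_zero_or_pos i with rfl | hi0
  · have : w = 0 := h.top _ (by push_cast; omega) w hw
    exact ⟨0, (T _).zero_mem, by rw [this, map_zero]⟩
  · have hp : p (2 * ((n : ℤ) + 1 - i) - 1) w = w := h.eq_comp fun m hm => hv _ m hm w hw
    obtain ⟨z, hz, -, hLz⟩ := h.surj (2 * i - 1) (by omega) i w (by
      convert hw using 2
      push_cast [Nat.cast_sub (show 1 ≤ 2 * i by omega)]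
      ring) (by
      convert hp using 2
      congr 1
      push_cast [Nat.cast_sub (show 1 ≤ 2 * i by omega)]
      ring)
    refine ⟨z, hz, ?_⟩
    have : n + 1 - 2 * i = n - (2 * i - 1) := by omega
    rw [this]
    exact hLz

end Core

/-- The properties of the height pairing. -/
structure IsHt (n : ℕ) (T : ℤ → Submodule ℚ M) (L : Module.End ℚ M) (p : ℤ → Module.End ℚ M)
    (ht : M → M → ℝ) : Prop where
  add_left : ∀ i : ℤ, ∀ z ∈ T i, ∀ z' ∈ T i, ∀ w ∈ T (n + 1 - i),
    ht (z + z') w = ht z w + ht z' w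
  add_right : ∀ i : ℤ, ∀ z ∈ T i, ∀ w ∈ T (n + 1 - i), ∀ w' ∈ T (n + 1 - i),
    ht z (w + w') = ht z w + ht z w'
  lef : ∀ i : ℤ, ∀ z ∈ T i, ∀ w ∈ T (n - i), ht (L z) w = ht z (L w)
  adj : ∀ i m : ℤ, 0 ≤ m → m ≤ 2 * n → ∀ z ∈ T i, ∀ w ∈ T (n + 1 - i),
    ht (p m z) w = ht z (p (2 * n - m) w)

/-- The Hodge index property. -/
def Hodge (n : ℕ) (T : ℤ → Submodule ℚ M) (L : Module.End ℚ M) (ht : M → M → ℝ) : Prop :=
  ∀ i : ℕ, 2 * i ≤ n + 1 → ∀ z ∈ T i, z ≠ 0 → (L ^ (n + 2 - 2 * i)) z = 0 →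
    0 < (-1) ^ i * ht z ((L ^ (n + 1 - 2 * i)) z)

/-- The pairing is nondegenerate. -/
def Nondeg (n : ℕ) (T : ℤ → Submodule ℚ M) (ht : M → M → ℝ) : Prop :=
  ∀ i : ℤ, ∀ z ∈ T i, (∀ w ∈ T (n + 1 - i), ht z w = 0) → z = 0

namespace Core

variable {ht : M → M → ℝ}

lemma zero_right (hh : IsHt n T L p ht) {i : ℤ} {z : M} (hz : z ∈ T i) : ht z 0 = 0 := by
  have := hh.add_right i z hz 0 (T _).zero_mem 0 (T _).zero_mem
  rw [add_zero] at this
  linarith

lemma zero_left (hh : IsHt n T L p ht) {i : ℤ} {w : M} (hw : w ∈ T (n + 1 - i)) : ht 0 w = 0 := by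
  have := hh.add_left i 0 (T _).zero_mem 0 (T _).zero_mem w hw
  rw [add_zero] at this
  linarith

lemma inj_of_hodge (hh : IsHt n T L p ht) (hH : Hodge n T L ht) : Inj n T L := by
  intro i hi z hz hLz
  by_contra h0
  have h1 : (L ^ (n + 2 - 2 * i)) z = 0 := by
    have e : n + 2 - 2 * i = 1 + (n + 1 - 2 * i) := by omega
    rw [e, pow_add, Module.End.mul_apply, hLz, map_zero]
  have h2 := hH i hi z hz h0 h1
  rw [hLz, zero_right hh hz, mul_zero] at h2
  exact lt_irrefl _ h2

variable (h : Core n T L p)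
include h

/-- The Hodge index property in terms of the weights. -/
lemma hodge_iff (hh : IsHt n T L p ht) : Hodge n T L ht ↔
    (∀ i m : ℤ, 2 * i ≤ m → ∀ z ∈ T i, p m z = 0) ∧
      ∀ i : ℕ, 2 * i ≤ n + 1 → ∀ z ∈ T i, p (2 * i - 1) z = z → z ≠ 0 →
        (L ^ (n + 2 - 2 * i)) z = 0 → 0 < (-1) ^ i * ht z ((L ^ (n + 1 - 2 * i)) z) := by
  constructor
  · intro hH
    exact ⟨fun i m him z hz => h.vanishA (inj_of_hodge hh hH) i m him z hz,
      fun i hi z hz _ h0 h1 => hH i hi z hz h0 h1⟩
  · rintro ⟨hA, hP⟩ i hi z hz h0 h1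
    refine hP i hi z hz (h.eq_comp fun m hm => ?_) h0 h1
    rcases lt_or_gt_of_ne hm with h2 | h2
    · rcases lt_or_ge m 0 with h3 | h3
      · exact h.out m (Or.inl h3) z
      obtain ⟨m, rfl⟩ := Int.eq_ofNat_of_zero_le h3
      refine h.inj m (by omega) i _ (h.pmem _ _ z hz) (h.idem _ z) ?_
      have e : n - m = (2 * i - 2 - m) + (n + 2 - 2 * i) := by omega
      rw [e, powSplit]
      have : (L ^ (n + 2 - 2 * i)) (p (m : ℤ) z) = 0 := by
        rw [← h.powComm, h1, map_zero]
      rw [this, map_zero]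
    · exact hA i m (by omega) z hz

lemma van_of_nondeg (hh : IsHt n T L p ht) (hH : Hodge n T L ht) (hN : Nondeg n T ht) :
    Van T p := by
  have hA := (h.hodge_iff hh).1 hH
  intro i m him z hz
  rcases lt_or_gt_of_ne him with h1 | h1
  · rcases em (m < 0 ∨ 2 * (n : ℤ) < m) with h2 | h2
    · exact h.out m h2 z
    push Not at h2
    refine hN i _ (h.pmem m i z hz) fun w hw => ?_
    rw [hh.adj i m h2.1 h2.2 z hz w hw]
    rw [hA.1 (n + 1 - i) (2 * n - m) (by omega) w hw]
    exact zero_right hh hz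
  · exact hA.1 i m (by omega) z hz

lemma powLef (hh : IsHt n T L p ht) (a : ℕ) : ∀ i : ℤ, ∀ z ∈ T i, ∀ w ∈ T (n + 1 - i - a),
    ht ((L ^ a) z) w = ht z ((L ^ a) w) := by
  induction a with
  | zero => intro i z _ w _; simp
  | succ a ih =>
    intro i z hz w hw
    have h1 : (L ^ a) z ∈ T (i + a) := h.powMem a i z hz
    rw [pow_succ', Module.End.mul_apply, hh.lef (i + a) _ h1 w (by
      convert hw using 2
      push_cast
      ring)]
    rw [ih i z hz (L w) (by
      have := h.Lmem _ w hw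
      convert this using 2
      push_cast
      ring)]
    rw [← Module.End.mul_apply, ← pow_succ, ← pow_succ']

lemma nondeg_low (hh : IsHt n T L p ht) (hH : Hodge n T L ht) (hs : Surj n T L) :
    ∀ i : ℕ, 2 * i ≤ n + 1 → ∀ z ∈ T i, (∀ w ∈ T (n + 1 - i), ht z w = 0) → z = 0 := by
  have hi := inj_of_hodge hh hH
  intro i
  induction i with
  | zero =>
    intro h0 z hz hw
    by_contra hne
    have h1 : (L ^ (n + 2 - 2 * 0)) z = 0 := by
      refine h.top _ ?_ _ (h.powMem _ _ z hz)
      push_cast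
      omega
    have h2 := hH 0 h0 z hz hne h1
    rw [hw _ (by
      have := h.powMem (n + 1 - 2 * 0) _ z hz
      convert this using 2
      push_cast
      ring)] at h2
    simp at h2
  | succ i ih =>
    intro h0 z hz hw
    by_contra hne
    have hy : (L ^ (n + 2 - 2 * (i + 1))) z ∈ T ((n : ℤ) + 1 - i) := by
      have := h.powMem (n + 2 - 2 * (i + 1)) _ z hz
      convert this using 2
      push_cast [Nat.cast_sub (show 2 * (i + 1) ≤ n + 2 by omega)]
      ring
    obtain ⟨u, hu, hLu⟩ := hs i (by omega) _ hy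
    have hu0 : u = 0 := by
      refine ih (by omega) u hu fun w hw' => ?_
      obtain ⟨v, hv, rfl⟩ := hs i (by omega) w hw'
      rw [← h.powLef hh _ i u hu v (by
        convert hv using 2
        push_cast [Nat.cast_sub (show 2 * i ≤ n + 1 by omega)]
        ring), hLu, h.powLef hh _ _ z hz v (by
        convert hv using 2
        push_cast [Nat.cast_sub (show 2 * (i + 1) ≤ n + 2 by omega)]
        ring)]
      refine hw _ ?_
      have := h.powMem (n + 2 - 2 * (i + 1)) _ v hv
      convert this using 2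
      push_cast [Nat.cast_sub (show 2 * (i + 1) ≤ n + 2 by omega)]
      ring
    have h1 : (L ^ (n + 2 - 2 * (i + 1))) z = 0 := by rw [← hLu, hu0, map_zero]
    have h2 := hH (i + 1) h0 z hz hne h1
    rw [hw _ (by
      have := h.powMem (n + 1 - 2 * (i + 1)) _ z hz
      convert this using 2
      push_cast [Nat.cast_sub h0]
      ring)] at h2
    simp at h2

lemma nondeg (hh : IsHt n T L p ht) (hH : Hodge n T L ht) (hs : Surj n T L) :
    Nondeg n T ht := by
  intro i z hz hw
  rcases lt_or_ge i 0 with h1 | h1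
  · exact h.neg i h1 z hz
  obtain ⟨i, rfl⟩ := Int.eq_ofNat_of_zero_le h1
  rcases le_or_gt (2 * i) (n + 1) with h2 | h2
  · exact h.nondeg_low hh hH hs i h2 z hz hw
  rcases lt_or_ge n i with h3 | h3
  · exact h.top _ (by exact_mod_cast h3) z hz
  · obtain ⟨u, hu, hLu⟩ := hs (n + 1 - i) (by omega) z (by
      convert hz using 2
      push_cast [Nat.cast_sub (show i ≤ n + 1 by omega)]
      ring)
    have hu0 : u = 0 := by
      refine h.nondeg_low hh hH hs (n + 1 - i) (by omega) u hu fun w hw' => ?_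
      obtain ⟨v, hv, rfl⟩ := hs (n + 1 - i) (by omega) w hw'
      rw [← h.powLef hh _ _ u hu v (by
        convert hv using 2
        push_cast [Nat.cast_sub (show i ≤ n + 1 by omega),
          Nat.cast_sub (show 2 * (n + 1 - i) ≤ n + 1 by omega)]
        ring), hLu]
      refine hw v ?_
      convert hv using 2
      push_cast [Nat.cast_sub (show i ≤ n + 1 by omega)]
      ring
    rw [← hLu, hu0, map_zero]

end Core

end Pool.Agent.N166.HI
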